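import Pool.Agent.Y184.NT.StC
import Pool.Agent.Y153.NT.CB

/-!
# Cayley–Bacharach for double points (`stCB2`)
-/

set_option autoImplicit false

namespace Pool.Agent.Y141.NT

open Pool.Agent.Y184.NT Pool.Agent.Y153.NT

section

variable {Ω : Type} [Field Ω] {N : ℕ} {ι : Type}

/-- the functional of a point with a tangent vector -/
def ph {m : ℕ} (v t : Fin N → Ω) (a b : Ω) (l : Fin m → Module.Dual Ω (Fin N → Ω)) : Ω :=
  a * ∏ k, l k v + b * ∑ j, (l j t * ∏ k ∈ Finset.univ.erase j, l k v)

theorem prod_erase_zero {m : ℕ} (f : Fin (m + 1) → Ω) :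
    ∏ k ∈ Finset.univ.erase 0, f k = ∏ k : Fin m, f k.succ := by
  have h : (Finset.univ.erase (0 : Fin (m + 1))) = Finset.univ.map (Fin.succEmb m) := by
    ext i
    rw [Finset.mem_erase, Finset.mem_map]
    constructor
    · rintro ⟨h1, _⟩
      obtain ⟨j, rfl⟩ := Fin.exists_succ_eq.2 h1
      exact ⟨j, Finset.mem_univ _, rfl⟩
    · rintro ⟨j, _, rfl⟩
      exact ⟨Fin.succ_ne_zero j, Finset.mem_univ _⟩
  rw [h, Finset.prod_map]
  rfl

theorem prod_erase_succ {m : ℕ} (f : Fin (m + 1) → Ω) (j : Fin m) :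
    ∏ k ∈ Finset.univ.erase j.succ, f k = f 0 * ∏ k ∈ Finset.univ.erase j, f k.succ := by
  have h : (Finset.univ.erase j.succ) = insert (0 : Fin (m + 1))
      ((Finset.univ.erase j).map (Fin.succEmb m)) := by
    ext i
    rw [Finset.mem_erase, Finset.mem_insert, Finset.mem_map]
    refine Fin.cases ?_ (fun k => ?_) i
    · constructor
      · intro _
        exact Or.inl rfl
      · intro _
        exact ⟨(Fin.succ_ne_zero j).symm, Finset.mem_univ _⟩
    · constructor
      · rintro ⟨h1, _⟩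
        exact Or.inr ⟨k, Finset.mem_erase.2 ⟨fun h2 => h1 (by rw [h2]), Finset.mem_univ _⟩, rfl⟩
      · rintro (h1 | ⟨k', hk', hk2⟩)
        · exact absurd h1 (Fin.succ_ne_zero k)
        · have h3 : k' = k := Fin.succ_injective m hk2
          subst h3
          refine ⟨fun h4 => (Finset.mem_erase.1 hk').1 (Fin.succ_injective m h4),
            Finset.mem_univ _⟩
  rw [h, Finset.prod_insert, Finset.prod_map]
  · rfl
  · rw [Finset.mem_map]
    rintro ⟨k, _, hk⟩
    exact Fin.succ_ne_zero k hk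

theorem ph_cons {m : ℕ} (v t : Fin N → Ω) (a b : Ω) (l0 : Module.Dual Ω (Fin N → Ω))
    (l : Fin m → Module.Dual Ω (Fin N → Ω)) :
    ph v t a b (Fin.cons l0 l : Fin (m + 1) → Module.Dual Ω (Fin N → Ω)) =
      ph v t (a * l0 v + b * l0 t) (b * l0 v) l := by
  unfold ph
  rw [Fin.prod_univ_succ, Fin.sum_univ_succ, prod_erase_zero]
  simp only [Fin.cons_zero, Fin.cons_succ]
  have h : ∀ j : Fin m, l j t * ∏ k ∈ Finset.univ.erase j.succ,
      (Fin.cons l0 l : Fin (m + 1) → Module.Dual Ω (Fin N → Ω)) k v =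
      l0 v * (l j t * ∏ k ∈ Finset.univ.erase j, l k v) := by
    intro j
    rw [prod_erase_succ]
    simp only [Fin.cons_zero, Fin.cons_succ]
    ring
  rw [Finset.sum_congr rfl fun j _ => h j, ← Finset.mul_sum]
  ring

open Classical in
/-- the length of a point -/
noncomputable def len (a b : Ω) : ℕ := if b ≠ 0 then 2 else if a ≠ 0 then 1 else 0

theorem len_b {a b : Ω} (h : b ≠ 0) : len a b = 2 := by
  unfold len
  rw [if_pos h]

theorem len_a {a : Ω} (h : a ≠ 0) : len a 0 = 1 := by
  unfold len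
  rw [if_neg (by simp), if_pos h]

theorem len_0 : len (0 : Ω) 0 = 0 := by
  unfold len
  rw [if_neg (by simp), if_neg (by simp)]

theorem len_le (a b x y : Ω) : len (a * x + b * y) (b * x) ≤ len a b := by
  by_cases hb : b = 0
  · subst hb
    rw [zero_mul, zero_mul, add_zero]
    by_cases ha : a = 0
    · subst ha
      rw [zero_mul]
    · rw [len_a ha]
      by_cases hx : a * x = 0
      · rw [hx, len_0]
        exact Nat.zero_le _
      · rw [len_a hx]
  · rw [len_b hb]
    unfold len
    split_ifs <;> norm_num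

/-- a functional which vanishes at the point -/
theorem len_lt (a b x y : Ω) (hx : x = 0) (h : a ≠ 0 ∨ b ≠ 0) :
    len (a * x + b * y) (b * x) + 1 ≤ len a b := by
  subst hx
  rw [mul_zero, zero_add, mul_zero]
  by_cases hb : b = 0
  · subst hb
    rw [zero_mul, len_0, len_a (h.resolve_right (by simp))]
  · rw [len_b hb]
    by_cases hy : b * y = 0
    · rw [hy, len_0]
      norm_num
    · rw [len_a hy]

theorem len_two (a b x y : Ω) (hx : x = 0) (hy : y = 0) :
    len (a * x + b * y) (b * x) = 0 := by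
  subst hx
  subst hy
  rw [mul_zero, mul_zero, add_zero, len_0]

theorem nz_of {a b x : Ω} (y : Ω) (hx : x ≠ 0) (h : a ≠ 0 ∨ b ≠ 0) :
    a * x + b * y ≠ 0 ∨ b * x ≠ 0 := by
  by_cases hb : b = 0
  · subst hb
    left
    rw [zero_mul, add_zero]
    exact mul_ne_zero (h.resolve_right (by simp)) hx
  · right
    exact mul_ne_zero hb hx

theorem nz_of' {a b : Ω} (x : Ω) {y : Ω} (hy : y ≠ 0) (hb : b ≠ 0) :
    a * x + b * y ≠ 0 ∨ b * x ≠ 0 := by
  by_cases hx : x = 0
  · subst hx
    left
    rw [mul_zero, zero_add]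
    exact mul_ne_zero hb hy
  · right
    exact mul_ne_zero hb hx

variable (S : Finset ι) (v t : ι → Fin N → Ω)

/-- the relation -/
def Rel (m : ℕ) (α β : ι → Ω) : Prop :=
  ∀ l : Fin m → Module.Dual Ω (Fin N → Ω), ∑ i ∈ S, ph (v i) (t i) (α i) (β i) l = 0

/-- the new coefficients -/
def na (α β : ι → Ω) (l0 : Module.Dual Ω (Fin N → Ω)) (i : ι) : Ω :=
  α i * l0 (v i) + β i * l0 (t i)

def nb (β : ι → Ω) (l0 : Module.Dual Ω (Fin N → Ω)) (i : ι) : Ω := β i * l0 (v i)

/-- the total length -/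
noncomputable def Lam (α β : ι → Ω) : ℕ := ∑ i ∈ S, len (α i) (β i)

variable {S v t}

theorem Rel.cons {m : ℕ} {α β : ι → Ω} (h : Rel S v t (m + 1) α β)
    (l0 : Module.Dual Ω (Fin N → Ω)) : Rel S v t m (na v t α β l0) (nb v β l0) := by
  intro l
  rw [← h (Fin.cons l0 l)]
  refine Finset.sum_congr rfl fun i _ => ?_
  rw [ph_cons]
  rfl

theorem Lam_le (α β : ι → Ω) (l0 : Module.Dual Ω (Fin N → Ω)) (T : Finset ι) :
    Lam T (na v t α β l0) (nb v β l0) ≤ Lam T α β :=
  Finset.sum_le_sum fun i _ => len_le _ _ _ _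

theorem lem1 [DecidableEq ι] (hvt : ∀ i ∈ S, LinearIndependent Ω ![v i, t i])
    (hvv : ∀ i ∈ S, ∀ j ∈ S, i ≠ j → LinearIndependent Ω ![v i, v j]) (m : ℕ) :
    ∀ α β : ι → Ω, (∃ i ∈ S, α i ≠ 0 ∨ β i ≠ 0) → Rel S v t m α β → m + 2 ≤ Lam S α β := by
  induction m with
  | zero =>
    rintro α β ⟨i, hi, h⟩ hrel
    by_contra hlt
    have h0 := Finset.add_sum_erase S (fun i => len (α i) (β i)) hi
    have hLam : Lam S α β = ∑ i ∈ S, len (α i) (β i) := rfl
    by_cases hb : β i = 0
    · have ha : α i ≠ 0 := h.resolve_right (by rw [hb]; simp)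
      have h1 : len (α i) (β i) = 1 := by rw [hb, len_a ha]
      have h2 : ∑ j ∈ S.erase i, len (α j) (β j) = 0 := by
        omega
      have h3 := hrel (fun k => k.elim0)
      have h4 : ∀ j ∈ S, ph (v j) (t j) (α j) (β j)
          (fun k : Fin 0 => (k.elim0 : Module.Dual Ω (Fin N → Ω))) = α j := by
        intro j _
        unfold ph
        simp
      rw [Finset.sum_congr rfl h4, ← Finset.add_sum_erase S _ hi, Finset.sum_eq_zero,
        add_zero] at h3
      · exact ha h3
      · intro j hj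
        have h5 := (Finset.sum_eq_zero_iff.1 h2) j hj
        by_contra h6
        by_cases h7 : β j = 0
        · rw [h7, len_a h6] at h5
          omega
        · rw [len_b h7] at h5
          omega
    · have h1 : len (α i) (β i) = 2 := len_b hb
      omega
  | succ m ih =>
    rintro α β ⟨i, hi, h⟩ hrel
    have hLam : Lam S α β = ∑ i ∈ S, len (α i) (β i) := rfl
    by_cases hex : ∃ j ∈ S, j ≠ i ∧ (α j ≠ 0 ∨ β j ≠ 0)
    · obtain ⟨j, hj, hji, hj2⟩ := hex
      obtain ⟨l0, hl0, hl0'⟩ := exists_sep _ _ (hvv j hj i hi hji)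
      have h1 := ih (na v t α β l0) (nb v β l0) ⟨i, hi, nz_of _ hl0' h⟩ (hrel.cons l0)
      have h2 := Finset.add_sum_erase S (fun i => len (α i) (β i)) hj
      have h3 := Finset.add_sum_erase S (fun i => len (na v t α β l0 i) (nb v β l0 i)) hj
      have h4 := Lam_le (v := v) (t := t) α β l0 (S.erase j)
      have h5 : len (na v t α β l0 j) (nb v β l0 j) + 1 ≤ len (α j) (β j) :=
        len_lt _ _ _ _ hl0 hj2
      unfold Lam at h1 h4 ⊢
      omega
    · push Not at hex
      by_cases hb : β i = 0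
      · have ha : α i ≠ 0 := h.resolve_right (by rw [hb]; simp)
        have hv0 : v i ≠ 0 := (hvt i hi).ne_zero 0
        obtain ⟨l0, -, hl0⟩ := exists_functional ⊥ (v i) (by simpa using hv0)
        have h1 := ih (na v t α β l0) (nb v β l0) ⟨i, hi, nz_of _ hl0 h⟩ (hrel.cons l0)
        have h2 : Lam S α β = 1 := by
          rw [hLam, Finset.sum_eq_single i]
          · rw [hb, len_a ha]
          · intro j hj hji
            obtain ⟨h5, h6⟩ := hex j hj hji
            rw [h5, h6, len_0]
          · intro h5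
            exact absurd hi h5
        have h4 := Lam_le (v := v) (t := t) α β l0 S
        omega
      · obtain ⟨l0, hl0, hl0'⟩ := exists_sep _ _ (hvt i hi)
        have h1 := ih (na v t α β l0) (nb v β l0) ⟨i, hi, nz_of' _ hl0' hb⟩ (hrel.cons l0)
        have h2 := Finset.add_sum_erase S (fun i => len (α i) (β i)) hi
        have h3 := Finset.add_sum_erase S (fun i => len (na v t α β l0 i) (nb v β l0 i)) hi
        have h4 := Lam_le (v := v) (t := t) α β l0 (S.erase i)
        have h5 : len (na v t α β l0 i) (nb v β l0 i) + 1 ≤ len (α i) (β i) :=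
          len_lt _ _ _ _ hl0 h
        unfold Lam at h1 h4 ⊢
        omega

theorem fin2 (x y : Fin N → Ω) : Module.finrank Ω (Submodule.span Ω {x, y}) ≤ 2 := by
  classical
  have h3 := finrank_span_finset_le_card (R := Ω) ({x, y} : Finset (Fin N → Ω))
  rw [Finset.coe_insert, Finset.coe_singleton] at h3
  exact h3.trans Finset.card_le_two

theorem lem2 [DecidableEq ι] (hvt : ∀ i ∈ S, LinearIndependent Ω ![v i, t i])
    (hvv : ∀ i ∈ S, ∀ j ∈ S, i ≠ j → LinearIndependent Ω ![v i, v j]) (m : ℕ) :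
    ∀ α β : ι → Ω, (∃ i ∈ S, α i ≠ 0 ∨ β i ≠ 0) → Rel S v t m α β → Lam S α β ≤ 2 * m + 1 →
    ∃ U : Submodule Ω (Fin N → Ω), Module.finrank Ω U ≤ 2 ∧
      ∀ i ∈ S, (α i ≠ 0 ∨ β i ≠ 0 → v i ∈ U) ∧ (β i ≠ 0 → t i ∈ U) := by
  induction m with
  | zero =>
    intro α β hne hrel hle
    have := lem1 hvt hvv 0 α β hne hrel
    omega
  | succ m ih =>
    intro α β hne hrel hle
    have hL1 := lem1 hvt hvv (m + 1) α β hne hrel
    -- a plane which contains a part of length two
    obtain ⟨U, hU, hUk⟩ : ∃ U : Submodule Ω (Fin N → Ω), Module.finrank Ω U ≤ 2 ∧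
        ∀ l0 : Module.Dual Ω (Fin N → Ω), (∀ y ∈ U, l0 y = 0) →
          Lam S (na v t α β l0) (nb v β l0) + 2 ≤ Lam S α β := by
      obtain ⟨i, hi, h⟩ := hne
      by_cases hb : β i = 0
      · have ha : α i ≠ 0 := h.resolve_right (by rw [hb]; simp)
        obtain ⟨j, hj, hji, hj2⟩ : ∃ j ∈ S, j ≠ i ∧ (α j ≠ 0 ∨ β j ≠ 0) := by
          by_contra hex
          push Not at hex
          have h2 : Lam S α β = 1 := by
            unfold Lam
            rw [Finset.sum_eq_single i]
            · rw [hb, len_a ha]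
            · intro j hj hji
              obtain ⟨h5, h6⟩ := hex j hj hji
              rw [h5, h6, len_0]
            · intro h5
              exact absurd hi h5
          omega
        refine ⟨Submodule.span Ω {v i, v j}, fin2 _ _, fun l0 hl0 => ?_⟩
        have hi0 : l0 (v i) = 0 := hl0 _ (Submodule.subset_span (by simp))
        have hj0 : l0 (v j) = 0 := hl0 _ (Submodule.subset_span (by simp))
        have hj' : j ∈ S.erase i := Finset.mem_erase.2 ⟨hji, hj⟩
        have h2 := Finset.add_sum_erase S (fun i => len (α i) (β i)) hi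
        have h3 := Finset.add_sum_erase S (fun i => len (na v t α β l0 i) (nb v β l0 i)) hi
        have h2' := Finset.add_sum_erase (S.erase i) (fun i => len (α i) (β i)) hj'
        have h3' := Finset.add_sum_erase (S.erase i)
          (fun i => len (na v t α β l0 i) (nb v β l0 i)) hj'
        have h4 := Lam_le (v := v) (t := t) α β l0 ((S.erase i).erase j)
        have h5 : len (na v t α β l0 i) (nb v β l0 i) + 1 ≤ len (α i) (β i) :=
          len_lt _ _ _ _ hi0 h
        have h6 : len (na v t α β l0 j) (nb v β l0 j) + 1 ≤ len (α j) (β j) :=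
          len_lt _ _ _ _ hj0 hj2
        unfold Lam at h4 ⊢
        omega
      · refine ⟨Submodule.span Ω {v i, t i}, fin2 _ _, fun l0 hl0 => ?_⟩
        have hi0 : l0 (v i) = 0 := hl0 _ (Submodule.subset_span (by simp))
        have hj0 : l0 (t i) = 0 := hl0 _ (Submodule.subset_span (by simp))
        have h2 := Finset.add_sum_erase S (fun i => len (α i) (β i)) hi
        have h3 := Finset.add_sum_erase S (fun i => len (na v t α β l0 i) (nb v β l0 i)) hi
        have h4 := Lam_le (v := v) (t := t) α β l0 (S.erase i)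
        have h5 : len (na v t α β l0 i) (nb v β l0 i) = 0 := len_two _ _ _ _ hi0 hj0
        have h6 : len (α i) (β i) = 2 := len_b hb
        unfold Lam at h4 ⊢
        omega
    by_cases hall : ∀ i ∈ S, (α i ≠ 0 ∨ β i ≠ 0 → v i ∈ U) ∧ (β i ≠ 0 → t i ∈ U)
    · exact ⟨U, hU, hall⟩
    · -- a functional which vanishes on a subspace and not on the data
      have hfun : ∀ U : Submodule Ω (Fin N → Ω),
          (¬ ∀ i ∈ S, (α i ≠ 0 ∨ β i ≠ 0 → v i ∈ U) ∧ (β i ≠ 0 → t i ∈ U)) →
          ∃ l0 : Module.Dual Ω (Fin N → Ω), (∀ y ∈ U, l0 y = 0) ∧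
            ∃ i ∈ S, na v t α β l0 i ≠ 0 ∨ nb v β l0 i ≠ 0 := by
        intro U hall
        push Not at hall
        obtain ⟨i, hi, h⟩ := hall
        by_cases h1 : α i ≠ 0 ∨ β i ≠ 0 → v i ∈ U
        · obtain ⟨h2, h3⟩ := h h1
          obtain ⟨l0, hl0, hl0'⟩ := exists_functional _ _ h3
          exact ⟨l0, hl0, i, hi, nz_of' _ hl0' h2⟩
        · rw [Classical.not_imp] at h1
          obtain ⟨h2, h3⟩ := h1
          obtain ⟨l0, hl0, hl0'⟩ := exists_functional _ _ h3
          exact ⟨l0, hl0, i, hi, nz_of _ hl0' h2⟩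
      obtain ⟨l0, hl0, hne0⟩ := hfun U hall
      have hk := hUk l0 hl0
      obtain ⟨U', hU', hall'⟩ := ih _ _ hne0 (hrel.cons l0) (by omega)
      have hL2 := lem1 hvt hvv m _ _ hne0 (hrel.cons l0)
      by_cases hall2 : ∀ i ∈ S, (α i ≠ 0 ∨ β i ≠ 0 → v i ∈ U') ∧ (β i ≠ 0 → t i ∈ U')
      · exact ⟨U', hU', hall2⟩
      · exfalso
        obtain ⟨l1, hl1, hne1⟩ := hfun U' hall2
        have hL3 := lem1 hvt hvv m _ _ hne1 (hrel.cons l1)
        have hsum : Lam S (na v t α β l1) (nb v β l1) + Lam S (na v t α β l0) (nb v β l0) ≤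
            Lam S α β := by
          unfold Lam
          rw [← Finset.sum_add_distrib]
          refine Finset.sum_le_sum fun i hi => ?_
          obtain ⟨h1, h2⟩ := hall' i hi
          by_cases hb0 : nb v β l0 i = 0
          · by_cases ha0 : na v t α β l0 i = 0
            · rw [ha0, hb0, len_0, add_zero]
              exact len_le _ _ _ _
            · have h3 : l1 (v i) = 0 := hl1 _ (h1 (Or.inl ha0))
              rw [hb0, len_a ha0]
              refine len_lt _ _ _ _ h3 ?_
              by_contra h4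
              push Not at h4
              apply ha0
              unfold na
              rw [h4.1, h4.2]
              ring
          · have h3 : l1 (v i) = 0 := hl1 _ (h1 (Or.inr hb0))
            have h4 : l1 (t i) = 0 := hl1 _ (h2 hb0)
            have h5 : len (na v t α β l1 i) (nb v β l1 i) = 0 := len_two _ _ _ _ h3 h4
            rw [h5, zero_add]
            exact len_le _ _ _ _
        omega

end

theorem stCB2 : StCB2 := by
  classical
  intro Ω _ N ι m S v t α β hS hβ hvt hvv hrel hcard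
  have hL : Lam S α β = 2 * S.card := by
    unfold Lam
    rw [Finset.sum_congr rfl fun i hi => len_b (hβ i hi), Finset.sum_const, smul_eq_mul, mul_comm]
  obtain ⟨i0, hi0⟩ := hS
  have hne : ∃ i ∈ S, α i ≠ 0 ∨ β i ≠ 0 := ⟨i0, hi0, Or.inr (hβ i0 hi0)⟩
  have h1 := lem1 hvt hvv m α β hne hrel
  obtain ⟨U, hU, hall⟩ := lem2 hvt hvv m α β hne hrel (by omega)
  refine ⟨by omega, fun i hi j hj hij k hk => ?_⟩
  have hle : Submodule.span Ω {v i, v j} ≤ U := by
    rw [Submodule.span_le]
    rintro u (rfl | rfl)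
    · exact (hall i hi).1 (Or.inr (hβ i hi))
    · exact (hall j hj).1 (Or.inr (hβ j hj))
  have heq : Submodule.span Ω {v i, v j} = U := by
    apply Submodule.eq_of_le_of_finrank_le hle
    have h2 : Module.finrank Ω (Submodule.span Ω {v i, v j}) = 2 := by
      have h2 := finrank_span_eq_card (hvv i hi j hj hij)
      rw [Fintype.card_fin] at h2
      have h3 : (Set.range ![v i, v j]) = {v i, v j} := by
        ext u
        simp [or_comm]
      rw [h3] at h2
      exact h2
    rw [h2]
    exact hU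
  rw [heq]
  exact ⟨(hall k hk).1 (Or.inr (hβ k hk)), (hall k hk).2 (hβ k hk)⟩

end Pool.Agent.Y141.NT
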